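import Pool.Agent.Helper26.MCE.GoalsA

/-!
Project MCE (MP_d8224a_co), packet CHAIN: the structure theorem from one step.
-/

set_option autoImplicit false

namespace Pool.Agent.Helper48.MCE

open Finset Pool.Agent.Helper87.MC Pool.Agent.Helper26.MCE

section num

variable {Q r i : ℕ}

theorem Qbig (hQ : 1024 * (r + 1) ^ 2 ≤ Q) : (1024 : ℝ) ≤ Q ∧ ((r : ℝ) + 1) ≤ Q := by
  have h1 : 1 ≤ (r + 1) ^ 2 := Nat.one_le_pow _ _ (by omega)
  have h2 : 1024 ≤ Q := by omega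
  have h3 : r + 1 ≤ Q := by
    have : r + 1 ≤ (r + 1) ^ 2 := by nlinarith
    omega
  constructor
  · exact_mod_cast h2
  · exact_mod_cast h3

theorem rhoC_pos (hQ : 1024 * (r + 1) ^ 2 ≤ Q) : 0 < rhoC Q r i := by
  have h := (Qbig hQ).1
  have h0 : (0 : ℝ) < Q := by linarith
  unfold rhoC
  positivity

theorem numA (hQ : 1024 * (r + 1) ^ 2 ≤ Q) :
    96 * (2 * (Q : ℝ)) ^ 2 * rhohC Q r i * Q * (16 * (2 * (Q : ℝ)) ^ 2) ^ (r + 1) ≤
      (Q : ℝ) ^ (3 * r + 10) * rhoC Q r i := by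
  have h := (Qbig hQ).1
  have h0 : (0 : ℝ) < Q := by linarith
  have hρ := rhoC_pos (i := i) hQ
  have h1 : (16 * (2 * (Q : ℝ)) ^ 2) ^ (r + 1) ≤ ((Q : ℝ) ^ 3) ^ (r + 1) := by
    refine pow_le_pow_left₀ (by positivity) ?_ _
    nlinarith [sq_nonneg (Q : ℝ)]
  have h2 : 96 * (2 * (Q : ℝ)) ^ 2 * rhohC Q r i * Q = 384 * (Q : ℝ) ^ 6 * rhoC Q r i := by
    unfold rhohC
    ring
  have h3 : 384 * (Q : ℝ) ^ 6 * rhoC Q r i ≤ (Q : ℝ) ^ 7 * rhoC Q r i := by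
    have : 384 * (Q : ℝ) ^ 6 ≤ (Q : ℝ) ^ 7 := by
      have e : (Q : ℝ) ^ 7 = Q * (Q : ℝ) ^ 6 := by ring
      rw [e]
      have : (0 : ℝ) ≤ (Q : ℝ) ^ 6 := by positivity
      nlinarith
    exact mul_le_mul_of_nonneg_right this hρ.le
  rw [h2]
  calc 384 * (Q : ℝ) ^ 6 * rhoC Q r i * (16 * (2 * (Q : ℝ)) ^ 2) ^ (r + 1)
      ≤ (Q : ℝ) ^ 7 * rhoC Q r i * ((Q : ℝ) ^ 3) ^ (r + 1) :=
        mul_le_mul h3 h1 (by positivity) (by positivity)
    _ = (Q : ℝ) ^ (3 * r + 10) * rhoC Q r i := by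
        rw [← pow_mul]
        have : (Q : ℝ) ^ (3 * r + 10) = (Q : ℝ) ^ 7 * (Q : ℝ) ^ (3 * (r + 1)) := by
          rw [← pow_add]
          congr 1
          ring
        rw [this]
        ring

theorem rhoC_mul_le (hQ : 1024 * (r + 1) ^ 2 ≤ Q) {a b : ℕ}
    (h : a + (5 * r + 20) * i + b ≤ 90 * r ^ 2) :
    (Q : ℝ) ^ a * rhoC Q r i * (Q : ℝ) ^ b ≤ 1 := by
  have h1 := (Qbig hQ).1
  have h0 : (0 : ℝ) < Q := by linarith
  unfold rhoC
  have e : (Q : ℝ) ^ a * ((Q : ℝ) ^ ((5 * r + 20) * i) / (Q : ℝ) ^ (90 * r ^ 2)) * (Q : ℝ) ^ b =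
      (Q : ℝ) ^ (a + (5 * r + 20) * i + b) / (Q : ℝ) ^ (90 * r ^ 2) := by
    rw [pow_add, pow_add]
    ring
  rw [e, div_le_one (by positivity)]
  exact pow_le_pow_right₀ (by linarith) h

theorem expo (hr : 1 ≤ r) (hi : i ≤ r + 1) :
    (3 * r + 10) + (5 * r + 20) * i + (r ^ 2 + 2) ≤ 90 * r ^ 2 := by
  have h1 : (5 * r + 20) * i ≤ (5 * r + 20) * (r + 1) := Nat.mul_le_mul_left _ hi
  nlinarith

theorem numB (hr : 1 ≤ r) (hQ : 1024 * (r + 1) ^ 2 ≤ Q) (hi : i ≤ r + 1) :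
    (Q : ℝ) ^ (3 * r + 10) * rhoC Q r i * (Q : ℝ) ^ (r ^ 2 + 2) ≤ 1 :=
  rhoC_mul_le hQ (expo hr hi)

theorem numC (hr : 1 ≤ r) (hQ : 1024 * (r + 1) ^ 2 ≤ Q) (hi : i ≤ r + 1) {n : ℕ}
    (hn : n ≤ Q ^ (r ^ 3)) :
    ((Q : ℝ) ^ (3 * r + 10) * rhoC Q r i) ^ (r + 1) * n < 1 := by
  have h1 := (Qbig hQ).1
  have h0 : (0 : ℝ) < Q := by linarith
  have hρ := rhoC_pos (i := i) hQ
  have hB := numB hr hQ hi
  have h2 : (((Q : ℝ) ^ (3 * r + 10) * rhoC Q r i) * (Q : ℝ) ^ (r ^ 2 + 2)) ^ (r + 1) ≤ 1 :=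
    pow_le_one₀ (by positivity) hB
  rw [mul_pow, ← pow_mul] at h2
  have h3 : (n : ℝ) ≤ (Q : ℝ) ^ (r ^ 3) := by exact_mod_cast hn
  have h4 : (Q : ℝ) ^ (r ^ 3) < (Q : ℝ) ^ ((r ^ 2 + 2) * (r + 1)) := by
    refine pow_lt_pow_right₀ (by linarith) ?_
    nlinarith
  calc ((Q : ℝ) ^ (3 * r + 10) * rhoC Q r i) ^ (r + 1) * n
      ≤ ((Q : ℝ) ^ (3 * r + 10) * rhoC Q r i) ^ (r + 1) * (Q : ℝ) ^ (r ^ 3) :=
        mul_le_mul_of_nonneg_left h3 (by positivity)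
    _ < ((Q : ℝ) ^ (3 * r + 10) * rhoC Q r i) ^ (r + 1) * (Q : ℝ) ^ ((r ^ 2 + 2) * (r + 1)) :=
        mul_lt_mul_of_pos_left h4 (by positivity)
    _ ≤ 1 := h2

theorem numD (hr : 1 ≤ r) (hQ : 1024 * (r + 1) ^ 2 ≤ Q) (hi : i ≤ r + 1) :
    4 * (1 + (Q : ℝ)) * ((Q : ℝ) ^ (3 * r + 10) * rhoC Q r i) ≤ 1 := by
  have h1 := (Qbig hQ).1
  have h0 : (0 : ℝ) < Q := by linarith
  have hρ := rhoC_pos (i := i) hQ
  have hB := numB hr hQ hi
  have h2 : 4 * (1 + (Q : ℝ)) ≤ (Q : ℝ) ^ (r ^ 2 + 2) := by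
    calc 4 * (1 + (Q : ℝ)) ≤ (Q : ℝ) ^ 2 := by nlinarith
      _ ≤ (Q : ℝ) ^ (r ^ 2 + 2) := pow_le_pow_right₀ (by linarith) (by omega)
  calc 4 * (1 + (Q : ℝ)) * ((Q : ℝ) ^ (3 * r + 10) * rhoC Q r i)
      ≤ (Q : ℝ) ^ (r ^ 2 + 2) * ((Q : ℝ) ^ (3 * r + 10) * rhoC Q r i) :=
        mul_le_mul_of_nonneg_right h2 (by positivity)
    _ = (Q : ℝ) ^ (3 * r + 10) * rhoC Q r i * (Q : ℝ) ^ (r ^ 2 + 2) := by ring
    _ ≤ 1 := hB

/-- The density of the next level. -/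
theorem numE (hQ : 1024 * (r + 1) ^ 2 ≤ Q) :
    ((r + 1 : ℕ) : ℝ) * ((Q : ℝ) ^ (3 * r + 10) * rhoC Q r i) ≤ rhoC Q r (i + 1) := by
  have h1 := Qbig hQ
  have h0 : (0 : ℝ) < Q := by linarith [h1.1]
  have hρ := rhoC_pos (i := i) hQ
  have e : rhoC Q r (i + 1) = (Q : ℝ) ^ (5 * r + 20) * rhoC Q r i := by
    unfold rhoC
    rw [mul_add, mul_one, pow_add]
    ring
  rw [e, ← mul_assoc]
  refine mul_le_mul_of_nonneg_right ?_ hρ.le
  push_cast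
  calc ((r : ℝ) + 1) * (Q : ℝ) ^ (3 * r + 10) ≤ Q * (Q : ℝ) ^ (3 * r + 10) :=
        mul_le_mul_of_nonneg_right h1.2 (by positivity)
    _ = (Q : ℝ) ^ (3 * r + 11) := by rw [pow_succ' (Q : ℝ) (3 * r + 10)]
    _ ≤ (Q : ℝ) ^ (5 * r + 20) := pow_le_pow_right₀ (by linarith [h1.1]) (by omega)

theorem numF (hr : 1 ≤ r) (hQ : 1024 * (r + 1) ^ 2 ≤ Q) (hi : i ≤ r + 1) :
    rhoC Q r i * (Q : ℝ) ^ (r ^ 2) ≤ 1 := by
  have h := rhoC_mul_le (i := i) hQ (a := 0) (b := r ^ 2) (by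
    have := expo hr hi
    omega)
  rwa [pow_zero, one_mul] at h

theorem numG (hQ : 1024 * (r + 1) ^ 2 ≤ Q) :
    16 * (4 * (Q : ℝ)) ^ (2 * (r + 1)) * (Q : ℝ) ^ 2 ≤ (Q : ℝ) ^ (4 * r + 7) := by
  have h1 := (Qbig hQ).1
  have h0 : (0 : ℝ) < Q := by linarith
  have h2 : (4 * (Q : ℝ)) ^ (2 * (r + 1)) ≤ ((Q : ℝ) ^ 3) ^ (r + 1) := by
    rw [pow_mul]
    refine pow_le_pow_left₀ (by positivity) ?_ _
    nlinarith [sq_nonneg (Q : ℝ)]
  calc 16 * (4 * (Q : ℝ)) ^ (2 * (r + 1)) * (Q : ℝ) ^ 2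
      ≤ Q * ((Q : ℝ) ^ 3) ^ (r + 1) * (Q : ℝ) ^ 2 := by
        refine mul_le_mul_of_nonneg_right ?_ (by positivity)
        exact mul_le_mul (by linarith) h2 (by positivity) h0.le
    _ = (Q : ℝ) ^ (3 * r + 6) := by
        rw [← pow_mul]
        have : 3 * r + 6 = 1 + 3 * (r + 1) + 2 := by ring
        rw [this, pow_add, pow_add, pow_one]
    _ ≤ (Q : ℝ) ^ (4 * r + 7) := pow_le_pow_right₀ (by linarith) (by omega)

end num

section main

variable {G : Type} [AddCommGroup G] [Fintype G]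

open Classical in
/-- The properties of the data `K', B, F` of one step. -/
def StepP (D : Finset G) (Q r i : ℕ) (K : AddSubgroup G) (d : AddSubgroup G × Finset G × ℕ) :
    Prop :=
  d.1 ≤ K ∧ 1 ≤ d.2.2 ∧
    (∀ x, NF D K x → (fib D K x).card ≤ d.2.2) ∧ (∃ x, NF D K x ∧ (fib D K x).card = d.2.2) ∧
    Clean D d.1 ((r + 1 : ℕ) * ((Q : ℝ) ^ (3 * r + 10) * rhoC Q r i)) ∧ d.2.1.Nonempty ∧
    (∀ b ∈ d.2.1, b ∈ full D d.1 ∧ NF D K b) ∧
    (∀ b ∈ d.2.1, ∀ y ∈ full D d.1, y - b ∈ K → y ∈ d.2.1) ∧ Nat.card d.1 ≤ d.2.2 ∧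
    NoSp D d.2.1 K d.1 (2 * (Q : ℝ)) (rhohC Q r i) ∧
    ∀ (M : AddSubgroup G) (FM : ℕ), K ≤ M → (∀ x, NF D M x → (fib D M x).card ≤ FM) →
      (((pop D d.2.1 K (Q : ℝ)).filter fun x => x ∈ M).card : ℝ) * d.2.2 ≤
        16 * (4 * (Q : ℝ)) ^ (2 * (r + 1)) * (Q : ℝ) ^ 2 * FM * Nat.card K

open Classical in
/-- The chosen data of one step. -/
noncomputable def stp (D : Finset G) (Q r i : ℕ) (K : AddSubgroup G) :
    AddSubgroup G × Finset G × ℕ :=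
  if h : K ≠ ⊥ ∧ ∃ d, StepP D Q r i K d then h.2.choose else (⊥, ∅, 0)

/-- The chain of subgroups. -/
noncomputable def KK (D : Finset G) (Q r : ℕ) : ℕ → AddSubgroup G
  | 0 => ⊤
  | i + 1 => (stp D Q r i (KK D Q r i)).1

theorem stp_bot (D : Finset G) (Q r i : ℕ) : stp D Q r i ⊥ = (⊥, ∅, 0) := by
  unfold stp
  rw [dif_neg]
  rintro ⟨h, -⟩
  exact h rfl

theorem stp_spec {D : Finset G} {Q r i : ℕ} {K : AddSubgroup G} (hK : K ≠ ⊥)
    (h : ∃ d, StepP D Q r i K d) : StepP D Q r i K (stp D Q r i K) := by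
  unfold stp
  rw [dif_pos ⟨hK, h⟩]
  exact h.choose_spec

theorem KK_succ (D : Finset G) (Q r i : ℕ) : KK D Q r (i + 1) = (stp D Q r i (KK D Q r i)).1 := rfl

theorem KK_bot {D : Finset G} {Q r i j : ℕ} (h : KK D Q r i = ⊥) (hij : i ≤ j) :
    KK D Q r j = ⊥ := by
  induction j, hij using Nat.le_induction with
  | base => exact h
  | succ j hj ih => rw [KK_succ, ih, stp_bot]

theorem step_ex (h1 : G_STEP) {D : Finset G} {Q r i : ℕ} (hr : 1 ≤ r)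
    (hQ : 1024 * (r + 1) ^ 2 ≤ Q) (hn1 : Fintype.card G ≤ 2 ^ Q)
    (hn2 : Fintype.card G ≤ Q ^ (r ^ 3)) (hD : D.Nonempty) (hP : NoPer D) (hi : i ≤ r + 1)
    {K : AddSubgroup G} (hK : K ≠ ⊥) : ∃ d, StepP D Q r i K d := by
  have hb := (Qbig hQ).1
  have h0 : (0 : ℝ) < Q := by linarith
  have hρ := rhoC_pos (i := i) hQ
  have hρh : 0 < rhohC Q r i := by
    unfold rhohC
    positivity
  have hQ1 : 1 ≤ Q := by
    have : (1 : ℝ) ≤ Q := by linarith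
    exact_mod_cast this
  obtain ⟨K', B, F, a1, a2, a3, a4, a5, a6, a7, a8, a9, a10, a11⟩ :=
    h1 G (Q : ℝ) (rhohC Q r i) ((Q : ℝ) ^ (3 * r + 10) * rhoC Q r i) Q (r + 1) D K
      (by linarith) hρh (by positivity) hQ1 hn1 (numC hr hQ hi hn2) (numA hQ) (numD hr hQ hi)
      hP hD hK
  exact ⟨(K', B, F), a1, a2, a3, a4, a5, a6, a7, a8, a9, a10, a11⟩

theorem goalCHAIN (h1 : G_STEP) : G_CHAIN := by
  intro G _ _ D Q r hr hQ hn1 hn2 hD hP hcard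
  have hb := (Qbig hQ).1
  have h0 : (0 : ℝ) < Q := by linarith
  -- `D` is not everything
  have hz : ∃ z : G, z ∉ D := by
    by_contra hcon
    push Not at hcon
    have hDu : D = univ := eq_univ_iff_forall.2 hcon
    have hQ2 : 2 ≤ Q ^ (100 * r ^ 2) := by
      have e1 : 2 ≤ Q := by
        have : (2 : ℝ) ≤ Q := by linarith
        exact_mod_cast this
      have e2 : 100 * r ^ 2 ≠ 0 := by positivity
      exact e1.trans (Nat.le_self_pow e2 Q)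
    have hc : 1 ≤ Fintype.card G := by
      obtain ⟨d, hd⟩ := hD
      exact Fintype.card_pos_iff.2 ⟨d⟩
    rw [hDu, card_univ] at hcard
    nlinarith [Nat.mul_le_mul hc hQ2]
  have hst : ∀ i ≤ r + 1, KK D Q r i ≠ ⊥ →
      StepP D Q r i (KK D Q r i) (stp D Q r i (KK D Q r i)) := fun i hi hK ↦
    stp_spec hK (step_ex h1 hr hQ hn1 hn2 hD hP hi hK)
  -- the densities
  have hdens : ∀ i, i + 1 ≤ r + 1 → KK D Q r (i + 1) ≠ ⊥ →
      ((stp D Q r (i + 1) (KK D Q r (i + 1))).2.2 : ℝ) ≤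
        rhoC Q r (i + 1) * Nat.card (KK D Q r (i + 1)) := by
    intro i hi hK
    have hK' : KK D Q r i ≠ ⊥ := fun h ↦ hK (KK_bot h (Nat.le_succ i))
    obtain ⟨-, -, -, -, a5, -⟩ := hst i (by omega) hK'
    obtain ⟨-, -, -, ⟨x, hx, hxF⟩, -⟩ := hst (i + 1) hi hK
    have e1 := a5 x hx
    rw [← KK_succ, hxF] at e1
    exact e1.trans (mul_le_mul_of_nonneg_right (numE hQ) (Nat.cast_nonneg _))
  -- the chain ends
  have hend : KK D Q r (r + 2) = ⊥ := by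
    by_contra hK
    have hne : ∀ i ≤ r + 2, KK D Q r i ≠ ⊥ := fun i hi h ↦ hK (KK_bot h hi)
    have hind : ∀ i ≤ r + 1, (Nat.card (KK D Q r (i + 1)) : ℝ) * (Q : ℝ) ^ (r ^ 2 * i) ≤
        Fintype.card G := by
      intro i
      induction i with
      | zero =>
        intro _
        rw [mul_zero, pow_zero, mul_one]
        have : Nat.card (KK D Q r (0 + 1)) ≤ Fintype.card G := by
          rw [← Nat.card_eq_fintype_card]
          exact AddSubgroup.card_le_card_addGroup _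
        exact_mod_cast this
      | succ i ih =>
        intro hi
        have e1 := ih (by omega)
        obtain ⟨-, -, -, -, -, -, -, -, a9, -⟩ := hst (i + 1) hi (hne _ (by omega))
        have e2 := hdens i hi (hne _ (by omega))
        have e3 : (Nat.card (KK D Q r (i + 1 + 1)) : ℝ) ≤
            rhoC Q r (i + 1) * Nat.card (KK D Q r (i + 1)) := by
          refine le_trans ?_ e2
          exact_mod_cast a9
        have e4 := numF hr hQ hi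
        calc (Nat.card (KK D Q r (i + 1 + 1)) : ℝ) * (Q : ℝ) ^ (r ^ 2 * (i + 1))
            ≤ rhoC Q r (i + 1) * Nat.card (KK D Q r (i + 1)) * (Q : ℝ) ^ (r ^ 2 * (i + 1)) :=
              mul_le_mul_of_nonneg_right e3 (by positivity)
          _ = (rhoC Q r (i + 1) * (Q : ℝ) ^ (r ^ 2)) *
              (Nat.card (KK D Q r (i + 1)) * (Q : ℝ) ^ (r ^ 2 * i)) := by
              rw [mul_add, mul_one, pow_add]
              ring
          _ ≤ 1 * (Nat.card (KK D Q r (i + 1)) * (Q : ℝ) ^ (r ^ 2 * i)) :=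
              mul_le_mul_of_nonneg_right e4 (by positivity)
          _ ≤ Fintype.card G := by rw [one_mul]; exact e1
    have e1 := hind (r + 1) le_rfl
    have e2 : (1 : ℝ) ≤ Nat.card (KK D Q r (r + 1 + 1)) := by
      have : 0 < Nat.card (KK D Q r (r + 1 + 1)) := Nat.card_pos
      exact_mod_cast this
    have e3 : (Fintype.card G : ℝ) ≤ (Q : ℝ) ^ (r ^ 3) := by exact_mod_cast hn2
    have e4 : (Q : ℝ) ^ (r ^ 3) < (Q : ℝ) ^ (r ^ 2 * (r + 1)) := by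
      refine pow_lt_pow_right₀ (by linarith) ?_
      have : 0 < r ^ 2 := by positivity
      nlinarith
    have e5 : (Q : ℝ) ^ (r ^ 2 * (r + 1)) ≤
        Nat.card (KK D Q r (r + 1 + 1)) * (Q : ℝ) ^ (r ^ 2 * (r + 1)) :=
      le_mul_of_one_le_left (by positivity) e2
    linarith
  -- the first index
  have hex : ∃ s, KK D Q r s = ⊥ := ⟨r + 2, hend⟩
  classical
  obtain ⟨s, hs, hmin⟩ : ∃ s, KK D Q r s = ⊥ ∧ ∀ i < s, KK D Q r i ≠ ⊥ :=
    ⟨Nat.find hex, Nat.find_spec hex, fun i hi ↦ Nat.find_min hex hi⟩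
  have hsr : s ≤ r + 2 := by
    by_contra hcon
    exact hmin (r + 2) (by omega) hend
  have htop : (⊤ : AddSubgroup G) ≠ ⊥ := by
    intro h
    obtain ⟨z, hz⟩ := hz
    obtain ⟨d, hd⟩ := hD
    have h2 : z - d ∈ (⊤ : AddSubgroup G) := trivial
    rw [h, AddSubgroup.mem_bot, sub_eq_zero] at h2
    exact hz (h2 ▸ hd)
  have hs1 : 1 ≤ s := by
    rcases Nat.eq_zero_or_pos s with h | h
    · rw [h] at hs
      exact absurd hs htop
    · exact h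
  have hS : ∀ i < s, StepP D Q r i (KK D Q r i) (stp D Q r i (KK D Q r i)) := fun i hi ↦
    hst i (by omega) (hmin i hi)
  have hanti : ∀ i, KK D Q r (i + 1) ≤ KK D Q r i := by
    intro i
    by_cases h : i < s
    · exact (hS i h).1
    · rw [KK_bot hs (by omega : s ≤ i + 1)]
      exact bot_le
  have hfib : ∀ i ≤ s, ∀ x, NF D (KK D Q r i) x →
      (fib D (KK D Q r i) x).card ≤ (stp D Q r i (KK D Q r i)).2.2 := by
    intro i hi x hx
    rcases hi.lt_or_eq with h | h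
    · exact (hS i h).2.2.1 x hx
    · rw [h, hs] at hx ⊢
      rw [stp_bot]
      obtain ⟨g, hg, hxg⟩ := hx
      rw [AddSubgroup.mem_bot] at hg
      rw [hg, add_zero] at hxg
      rw [Nat.le_zero, card_eq_zero, eq_empty_iff_forall_notMem]
      intro y hy
      unfold fib at hy
      rw [mem_filter, AddSubgroup.mem_bot, sub_eq_zero] at hy
      exact hxg (hy.2 ▸ hy.1)
  refine ⟨s, KK D Q r, fun i ↦ (stp D Q r i (KK D Q r i)).2.2,
    fun i ↦ (stp D Q r i (KK D Q r i)).2.1, hs1, hsr, ?_⟩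
  refine
    { K0 := rfl
      Ks := hs
      anti := fun i _ ↦ hanti i
      f0 := ?_
      fs := ?_
      fib_le := hfib
      fpos := fun i hi ↦ (hS i hi).2.1
      dens := ?_
      Bne := fun i hi ↦ (hS i hi).2.2.2.2.2.1
      Bsub := fun i hi ↦ (hS i hi).2.2.2.2.2.2.1
      Bsat := fun i hi ↦ (hS i hi).2.2.2.2.2.2.2.1
      cnt := ?_
      nosp := fun i hi ↦ (hS i hi).2.2.2.2.2.2.2.2.2.1 }
  · obtain ⟨-, -, -, ⟨x, hx, hxF⟩, -⟩ := hS 0 hs1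
    show (stp D Q r 0 (KK D Q r 0)).2.2 = D.card
    rw [← hxF]
    congr 1
    unfold fib
    refine filter_true_of_mem fun y _ ↦ ?_
    exact AddSubgroup.mem_top _
  · show (stp D Q r s (KK D Q r s)).2.2 = 0
    rw [hs, stp_bot]
  · intro i hi1 hi
    obtain ⟨j, rfl⟩ : ∃ j, i = j + 1 := ⟨i - 1, by omega⟩
    exact hdens j (by omega) (hmin _ hi)
  · intro l i hli hi
    have hle : KK D Q r i ≤ KK D Q r l := antitone_nat_of_succ_le hanti hli.le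
    have e1 := (hS i hi).2.2.2.2.2.2.2.2.2.2 (KK D Q r l) (stp D Q r l (KK D Q r l)).2.2 hle
      (hfib l (by omega))
    refine e1.trans ?_
    refine mul_le_mul_of_nonneg_right ?_ (Nat.cast_nonneg _)
    exact mul_le_mul_of_nonneg_right (numG hQ) (Nat.cast_nonneg _)

end main

end Pool.Agent.Helper48.MCE
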